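import Mathlib

/-!
# The map of degree nine on `w ^ 2 = q(x)`
-/

namespace Pool.Agent.Helper32.FAM

open Polynomial

universe u

namespace P4

/-- the formal identity. -/
lemma formal {A : Type*} [CommRing A] (q0 q1 q2 q3 q4 u Z D : A) (hu : u = 4 * q0 * q2 - q1 ^ 2)
    (hZ : Z = 8 * q0 ^ 2 * q3 - q1 * u) (hD : D = u ^ 2 - 64 * q0 ^ 3 * q4) :
    q0 * D ^ 4 + q1 * (8 * q0 * Z) * D ^ 3 + q2 * (8 * q0 * Z) ^ 2 * D ^ 2
      + q3 * (8 * q0 * Z) ^ 3 * D + q4 * (8 * q0 * Z) ^ 4 =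
    q0 * (D ^ 2 + 4 * q1 * Z * D + 8 * u * Z ^ 2) ^ 2 := by
  subst hD hZ hu
  ring

/-- Taylor expansion. -/
lemma taylor {A : Type*} [CommRing A] (a0 a1 a2 a3 a4 x T D : A) :
    a0 * D ^ 4 + a1 * (x * D + T) * D ^ 3 + a2 * (x * D + T) ^ 2 * D ^ 2
      + a3 * (x * D + T) ^ 3 * D + a4 * (x * D + T) ^ 4 =
    (a4 * x ^ 4 + a3 * x ^ 3 + a2 * x ^ 2 + a1 * x + a0) * D ^ 4
      + (4 * a4 * x ^ 3 + 3 * a3 * x ^ 2 + 2 * a2 * x + a1) * T * D ^ 3
      + (6 * a4 * x ^ 2 + 3 * a3 * x + a2) * T ^ 2 * D ^ 2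
      + (4 * a4 * x + a3) * T ^ 3 * D + a4 * T ^ 4 := by
  ring

/-- the osculation identity. -/
lemma oscul {A : Type*} [CommRing A] (a0 a1 a2 a3 a4 r x q0 q1 q2 q3 u Z D : A)
    (h0 : q0 = a4 * r ^ 4 + a3 * r ^ 3 + a2 * r ^ 2 + a1 * r + a0)
    (h1 : q1 = 4 * a4 * r ^ 3 + 3 * a3 * r ^ 2 + 2 * a2 * r + a1)
    (h2 : q2 = 6 * a4 * r ^ 2 + 3 * a3 * r + a2) (h3 : q3 = 4 * a4 * r + a3)
    (hu : u = 4 * q0 * q2 - q1 ^ 2)
    (hZ : Z = 8 * q0 ^ 2 * q3 - q1 * u) (hD : D = u ^ 2 - 64 * q0 ^ 3 * a4) :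
    (8 * q0 ^ 2 + 4 * q0 * q1 * (x - r) + u * (x - r) ^ 2) ^ 2
      - 64 * q0 ^ 3 * (a4 * x ^ 4 + a3 * x ^ 3 + a2 * x ^ 2 + a1 * x + a0) =
    (x - r) ^ 3 * (-8 * q0 * Z) + (x - r) ^ 4 * D := by
  have e : a4 * x ^ 4 + a3 * x ^ 3 + a2 * x ^ 2 + a1 * x + a0 =
      q0 + q1 * (x - r) + q2 * (x - r) ^ 2 + q3 * (x - r) ^ 3 + a4 * (x - r) ^ 4 := by
    subst h0 h1 h2 h3
    ring
  rw [e]
  subst hD hZ hu
  generalize x - r = y
  ring

/-- explicit form of a polynomial of degree at most four. -/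
lemma expl {L : Type u} [Field L] (q : L[X]) (h4 : q.natDegree ≤ 4) :
    q = C (q.coeff 4) * X ^ 4 + C (q.coeff 3) * X ^ 3 + C (q.coeff 2) * X ^ 2
      + C (q.coeff 1) * X + C (q.coeff 0) := by
  conv_lhs => rw [q.as_sum_range' 5 (by omega)]
  simp only [Finset.sum_range_succ, Finset.sum_range_zero, ← C_mul_X_pow_eq_monomial]
  ring

/-- coprimality. -/
lemma coprime {L : Type u} [Field L] [CharZero L] (q : L[X]) (hs : q.Separable)
    (h3 : 3 ≤ q.natDegree) (h4 : q.natDegree ≤ 4) (q1 q2 q3 q4 u Z D : L[X])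
    (e1 : q1 = 4 * C (q.coeff 4) * X ^ 3 + 3 * C (q.coeff 3) * X ^ 2 + 2 * C (q.coeff 2) * X
      + C (q.coeff 1))
    (e2 : q2 = 6 * C (q.coeff 4) * X ^ 2 + 3 * C (q.coeff 3) * X + C (q.coeff 2))
    (e3 : q3 = 4 * C (q.coeff 4) * X + C (q.coeff 3)) (e4 : q4 = C (q.coeff 4))
    (hq1 : IsCoprime q q1)
    (hu : u = 4 * q * q2 - q1 ^ 2) (hZ : Z = 8 * q ^ 2 * q3 - q1 * u)
    (hD : D = u ^ 2 - 64 * q ^ 3 * q4) : IsCoprime Z D := by
  have hqD : IsCoprime q D := by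
    have e : D = q1 ^ 4 + q * (16 * q * q2 ^ 2 - 8 * q2 * q1 ^ 2 - 64 * q ^ 2 * q4) := by
      rw [hD, hu]; ring
    rw [e]
    exact (hq1.pow_right (n := 4)).add_mul_left_right _
  by_contra hn
  -- a common root
  obtain ⟨r, hrZ, hrD⟩ : ∃ r : AlgebraicClosure L, aeval r Z = 0 ∧ aeval r D = 0 := by
    by_contra hc
    push Not at hc
    apply hn
    have := (isCoprime_iff_aeval_ne_zero_of_isAlgClosed L (AlgebraicClosure L) Z D).2 (by
      intro a
      by_cases ha : aeval a Z = 0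
      · exact Or.inr (hc a ha)
      · exact Or.inl ha)
    exact this
  have hr0 : aeval r q ≠ 0 := by
    intro h0
    obtain ⟨s, t, hst⟩ := hqD
    have := congrArg (aeval r) hst
    simp [h0, hrD] at this
  -- the identity
  have hex := expl q h4
  set a0 := q.coeff 0
  set a1 := q.coeff 1
  set a2 := q.coeff 2
  set a3 := q.coeff 3
  set a4 := q.coeff 4
  let i := algebraMap L (AlgebraicClosure L)
  have d2 : aeval r (2 : L[X]) = 2 := map_ofNat (aeval r) 2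
  have d3 : aeval r (3 : L[X]) = 3 := map_ofNat (aeval r) 3
  have d4 : aeval r (4 : L[X]) = 4 := map_ofNat (aeval r) 4
  have d6 : aeval r (6 : L[X]) = 6 := map_ofNat (aeval r) 6
  have d8 : aeval r (8 : L[X]) = 8 := map_ofNat (aeval r) 8
  have d64 : aeval r (64 : L[X]) = 64 := map_ofNat (aeval r) 64
  have v0 : aeval r q = i a4 * r ^ 4 + i a3 * r ^ 3 + i a2 * r ^ 2 + i a1 * r + i a0 := by
    rw [hex]; simp [i]
  have v1 : aeval r q1 = 4 * i a4 * r ^ 3 + 3 * i a3 * r ^ 2 + 2 * i a2 * r + i a1 := by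
    rw [e1]; simp [i, d2, d3, d4]
  have v2 : aeval r q2 = 6 * i a4 * r ^ 2 + 3 * i a3 * r + i a2 := by
    rw [e2]; simp [i, d3, d6]
  have v3 : aeval r q3 = 4 * i a4 * r + i a3 := by
    rw [e3]; simp [i, d4]
  have v4 : aeval r q4 = i a4 := by rw [e4]; simp [i]
  have vu : aeval r u = 4 * aeval r q * aeval r q2 - aeval r q1 ^ 2 := by rw [hu]; simp [d4]
  have vZ : (0 : AlgebraicClosure L) = 8 * aeval r q ^ 2 * aeval r q3 - aeval r q1 * aeval r u := by
    rw [← hrZ, hZ]; simp [d8]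
  have vD : (0 : AlgebraicClosure L) = aeval r u ^ 2 - 64 * aeval r q ^ 3 * i a4 := by
    rw [← hrD, hD, ← v4]; simp [d64]
  have c2 : C (2 : AlgebraicClosure L) = 2 := map_ofNat C 2
  have c3 : C (3 : AlgebraicClosure L) = 3 := map_ofNat C 3
  have c4 : C (4 : AlgebraicClosure L) = 4 := map_ofNat C 4
  have c6 : C (6 : AlgebraicClosure L) = 6 := map_ofNat C 6
  have c8 : C (8 : AlgebraicClosure L) = 8 := map_ofNat C 8
  have c64 : C (64 : AlgebraicClosure L) = 64 := map_ofNat C 64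
  have key := oscul (A := (AlgebraicClosure L)[X]) (C (i a0)) (C (i a1)) (C (i a2)) (C (i a3)) (C (i a4)) (C r) X
    (C (aeval r q)) (C (aeval r q1)) (C (aeval r q2)) (C (aeval r q3)) (C (aeval r u)) 0 0
    (by rw [v0]; simp) (by rw [v1]; simp [c2, c3, c4]) (by rw [v2]; simp [c3, c6])
    (by rw [v3]; simp [c4]) (by rw [vu]; simp [c4]) (by
      have := congrArg C vZ
      simpa [c8] using this) (by
      have := congrArg C vD
      simpa [c64] using this)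
  set A : (AlgebraicClosure L)[X] := 8 * C (aeval r q) ^ 2 + 4 * C (aeval r q) * C (aeval r q1) * (X - C r)
    + C (aeval r u) * (X - C r) ^ 2 with hA
  have hmap : q.map i = C (i a4) * X ^ 4 + C (i a3) * X ^ 3 + C (i a2) * X ^ 2 + C (i a1) * X
      + C (i a0) := by
    conv_lhs => rw [hex]
    simp
  rw [← hmap] at key
  have key2 : A ^ 2 = 64 * C (aeval r q) ^ 3 * q.map i := by linear_combination key
  have hunit : IsUnit ((64 : (AlgebraicClosure L)[X]) * C (aeval r q) ^ 3) := by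
    have : (64 : (AlgebraicClosure L)[X]) * C (aeval r q) ^ 3 = C (64 * aeval r q ^ 3) := by
      rw [C_mul, C_pow, map_ofNat C 64]
    rw [this]
    exact isUnit_C.2 (by
      rw [isUnit_iff_ne_zero]
      exact mul_ne_zero (by norm_num) (pow_ne_zero _ hr0))
  have hsq : Squarefree (q.map i) := (Separable.map hs).squarefree
  have hAu : IsUnit A := by
    apply hsq A
    rw [← hunit.dvd_mul_left (a := A * A), ← key2, pow_two]
  have hqu : IsUnit (q.map i) := by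
    have h := hAu.pow 2
    rw [key2] at h
    exact isUnit_of_mul_isUnit_right h
  have hd := natDegree_eq_zero_of_isUnit hqu
  rw [natDegree_map] at hd
  omega

end P4

open P4

/-- P4: the map of degree nine given by multiplication by `-3` on `w ^ 2 = q(x)`. -/
theorem tripling {L : Type u} [Field L] [CharZero L] (q : L[X]) (hs : q.Separable)
    (h3 : 3 ≤ q.natDegree) (h4 : q.natDegree ≤ 4) :
    ∃ P D R : L[X], IsCoprime P D ∧ 2 ≤ max P.natDegree D.natDegree ∧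
      ∑ i ∈ Finset.range 5, C (q.coeff i) * P ^ i * D ^ (4 - i) = q * R ^ 2 := by
  have hex := expl q h4
  obtain ⟨q1, e1⟩ : ∃ q1 : L[X], q1 = 4 * C (q.coeff 4) * X ^ 3 + 3 * C (q.coeff 3) * X ^ 2
    + 2 * C (q.coeff 2) * X + C (q.coeff 1) := ⟨_, rfl⟩
  obtain ⟨q2, e2⟩ : ∃ q2 : L[X], q2 = 6 * C (q.coeff 4) * X ^ 2 + 3 * C (q.coeff 3) * X
    + C (q.coeff 2) := ⟨_, rfl⟩
  obtain ⟨q3, e3⟩ : ∃ q3 : L[X], q3 = 4 * C (q.coeff 4) * X + C (q.coeff 3) := ⟨_, rfl⟩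
  obtain ⟨q4, e4⟩ : ∃ q4 : L[X], q4 = C (q.coeff 4) := ⟨_, rfl⟩
  obtain ⟨u, hu⟩ : ∃ u : L[X], u = 4 * q * q2 - q1 ^ 2 := ⟨_, rfl⟩
  obtain ⟨Z, hZ⟩ : ∃ Z : L[X], Z = 8 * q ^ 2 * q3 - q1 * u := ⟨_, rfl⟩
  obtain ⟨D, hD⟩ : ∃ D : L[X], D = u ^ 2 - 64 * q ^ 3 * q4 := ⟨_, rfl⟩
  have hder : derivative q = q1 := by
    rw [e1]
    conv_lhs => rw [hex]
    simp only [derivative_add, derivative_C_mul, derivative_X_pow, derivative_C, derivative_X]
    have c4 : C (4 : L) = 4 := map_ofNat C 4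
    have c3 : C (3 : L) = 3 := map_ofNat C 3
    have c2 : C (2 : L) = 2 := map_ofNat C 2
    simp [c4, c3, c2]
    ring
  have hq1 : IsCoprime q q1 := by
    rw [← hder]; exact hs
  have hqD : IsCoprime q D := by
    have e : D = q1 ^ 4 + q * (16 * q * q2 ^ 2 - 8 * q2 * q1 ^ 2 - 64 * q ^ 2 * q4) := by
      rw [hD, hu]; ring
    rw [e]
    exact (hq1.pow_right (n := 4)).add_mul_left_right _
  have hZD := coprime q hs h3 h4 q1 q2 q3 q4 u Z D e1 e2 e3 e4 hq1 hu hZ hD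
  have h8 : IsUnit (8 : L[X]) := by
    have : (8 : L[X]) = C 8 := (map_ofNat C 8).symm
    rw [this]
    exact isUnit_C.2 (by rw [isUnit_iff_ne_zero]; norm_num)
  refine ⟨X * D + 8 * q * Z, D, D ^ 2 + 4 * q1 * Z * D + 8 * u * Z ^ 2, ?_, ?_, ?_⟩
  · have h : IsCoprime (8 * q * Z) D := by
      refine IsCoprime.mul_left (IsCoprime.mul_left ?_ hqD) hZD
      exact (isCoprime_one_left (x := D)).of_isCoprime_of_dvd_left h8.dvd
    exact h.mul_add_right_left X
  · by_contra hc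
    have hmax : max (X * D + 8 * q * Z).natDegree D.natDegree ≤ 1 := by omega
    have hP : (X * D + 8 * q * Z).natDegree ≤ 1 := (le_max_left _ _).trans hmax
    have hDd : D.natDegree ≤ 1 := (le_max_right _ _).trans hmax
    have hZ0 : Z = 0 := by
      by_contra hZ0
      have hq0 : q ≠ 0 := by rintro rfl; simp at h3
      have e : q * Z = C (1/8) * ((X * D + 8 * q * Z) - X * D) := by
        have : C (1/8 : L) * 8 = 1 := by
          rw [← map_ofNat C 8, ← C_mul]; norm_num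
        linear_combination (-(q * Z)) * this
      have d1 : (q * Z).natDegree ≤ 2 := by
        rw [e]
        refine (natDegree_C_mul_le _ _).trans ((natDegree_sub_le _ _).trans ?_)
        have : (X * D).natDegree ≤ 1 + 1 := natDegree_mul_le.trans (add_le_add natDegree_X_le hDd)
        omega
      rw [natDegree_mul hq0 hZ0] at d1
      omega
    have hdiv : q ∣ q1 ^ 3 := ⟨4 * q1 * q2 - 8 * q * q3, by
      have := hZ0
      rw [hZ, hu] at this
      linear_combination this⟩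
    have hun : IsUnit q := (hq1.pow_right (n := 3)).isUnit_of_dvd' dvd_rfl hdiv
    have := natDegree_eq_zero_of_isUnit hun
    omega
  · simp only [Finset.sum_range_succ, Finset.sum_range_zero]
    have t := taylor (C (q.coeff 0)) (C (q.coeff 1)) (C (q.coeff 2)) (C (q.coeff 3))
      (C (q.coeff 4)) X (8 * q * Z) D
    rw [← hex, ← e1, ← e2, ← e3, ← e4] at t
    have f := formal q q1 q2 q3 q4 u Z D hu hZ hD
    rw [← f, ← t, e4]
    norm_num

end Pool.Agent.Helper32.FAM
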